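import Pool.Agent.K3h53.UG.Stm2
import Pool.Agent.K3h67.EX.Solve
import Pool.Agent.K3h18.EX.ExpB
import Pool.Agent.K3h74.EX.TopUpp

/-! UG project (helper53), second part, brick SIZEPOS: growth of sizes; points with given real
parts. -/

set_option autoImplicit false

namespace Pool.Agent.K3h33.UG2

open MvPolynomial Filter Topology Metric Set Pool.Agent.K3h22.EX Pool.Agent.K3h53.UG
open Pool.Agent.K3h67.EX (dlin dlin_apply)

lemma qm_deg {s : ℕ} {β : Type} [Fintype β] (p : β → MvPolynomial (Fin s) ℂ) (c : β → ℂ) (δ : ℕ)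
    (hp : ∀ b, (p b).totalDegree ≤ δ) (m : β →₀ ℕ) : (qm p c m).totalDegree ≤ δ := by
  unfold qm expo
  refine (totalDegree_add _ _).trans (max_le ?_ ?_)
  · refine (totalDegree_finsetSum _ _).trans (Finset.sup_le fun b _ => ?_)
    refine (totalDegree_mul _ _).trans ?_
    have h1 : ((m b : ℕ) : MvPolynomial (Fin s) ℂ) = C ((m b : ℕ) : ℂ) := by simp
    rw [h1, totalDegree_C, zero_add]
    exact hp b
  · rw [totalDegree_C]
    exact Nat.zero_le _

/-- points at bounded distance of `R ζ` -/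
lemma near {s : ℕ} {ζ : Fin s → ℂ} {R C₀ : ℝ} (hR : 1 ≤ R) (hC : C₀ ≤ R) {z : Fin s → ℂ}
    (hz : ‖z - sc R ζ‖ ≤ C₀) : ∃ v : Fin s → ℂ, ‖v‖ ≤ ‖ζ‖ + 1 ∧ z = sc R v := by
  have hR0 : 0 < R := by linarith
  have hRc : (R : ℂ) ≠ 0 := by exact_mod_cast hR0.ne'
  refine ⟨fun i => (R : ℂ)⁻¹ * z i, ?_, ?_⟩
  · have h1 : (fun i => (R : ℂ)⁻¹ * z i) = ζ + (R : ℂ)⁻¹ • (z - sc R ζ) := by
      funext i
      simp only [Pi.add_apply, Pi.smul_apply, Pi.sub_apply, sc, smul_eq_mul]
      field_simp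
      ring
    rw [h1]
    refine (norm_add_le _ _).trans ?_
    rw [norm_smul, norm_inv, Complex.norm_real, Real.norm_of_nonneg hR0.le]
    have h2 : R⁻¹ * ‖z - sc R ζ‖ ≤ 1 := by
      rw [inv_mul_le_iff₀ hR0, mul_one]
      exact hz.trans hC
    linarith
  · funext i
    simp only [sc]
    field_simp

/-- polynomials of degree at most `δ`, differences -/
lemma lipq {s : ℕ} (q : MvPolynomial (Fin s) ℂ) (δ : ℕ) (hq : q.totalDegree ≤ δ) (ζ : Fin s → ℂ)
    (C₀ : ℝ) : ∃ K : ℝ, 0 ≤ K ∧ ∀ R : ℝ, 1 ≤ R → ∀ z z' : Fin s → ℂ, ‖z - sc R ζ‖ ≤ C₀ →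
      ‖z' - sc R ζ‖ ≤ C₀ → ‖eval z q - eval z' q‖ ≤ K * (R ^ δ / R) * ‖z - z'‖ := by
  rcases Nat.eq_zero_or_pos q.totalDegree with h0 | h0
  · refine ⟨0, le_rfl, fun R _ z z' _ _ => ?_⟩
    obtain ⟨a, ha⟩ : ∃ a : ℂ, q = C a := ⟨_, (totalDegree_eq_zero_iff_eq_C.1 h0)⟩
    rw [ha]
    simp
  · obtain ⟨K1, hK1, h⟩ := Pool.Agent.K3h18.EX.t_EXPB s q ζ C₀ h0
    set D : ℝ := ∑ j, ‖eval ζ (pderiv j (top q))‖ with hD
    have hD0 : 0 ≤ D := Finset.sum_nonneg fun _ _ => norm_nonneg _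
    refine ⟨D + K1, by positivity, fun R hR z z' hz hz' => ?_⟩
    have hR0 : 0 < R := by linarith
    have h1 := (h R hR).2 (z - sc R ζ) (z' - sc R ζ) hz hz'
    have e1 : sc R ζ + (z - sc R ζ) = z := by abel
    have e2 : sc R ζ + (z' - sc R ζ) = z' := by abel
    have e3 : z - sc R ζ - (z' - sc R ζ) = z - z' := by abel
    rw [e1, e2, e3] at h1
    have h2 : ∑ j, eval ζ (pderiv j (top q)) * ((z - sc R ζ) j - (z' - sc R ζ) j) =
        ∑ j, eval ζ (pderiv j (top q)) * (z j - z' j) := by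
      refine Finset.sum_congr rfl fun j _ => ?_
      simp only [Pi.sub_apply]
      ring
    rw [h2] at h1
    have h3 : ‖(R : ℂ) ^ (q.totalDegree - 1) * ∑ j, eval ζ (pderiv j (top q)) * (z j - z' j)‖ ≤
        R ^ (q.totalDegree - 1) * (D * ‖z - z'‖) := by
      rw [norm_mul, norm_pow, Complex.norm_real, Real.norm_of_nonneg hR0.le]
      gcongr
      rw [hD, Finset.sum_mul]
      refine (norm_sum_le _ _).trans (Finset.sum_le_sum fun j _ => ?_)
      rw [norm_mul]
      gcongr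
      exact norm_le_pi_norm (z - z') j
    have h4 : R ^ (q.totalDegree - 1) ≤ R ^ δ / R := by
      rw [le_div_iff₀ hR0, ← pow_succ]
      exact pow_le_pow_right₀ hR (by omega)
    have h5 : R ^ q.totalDegree / R ^ 2 ≤ R ^ δ / R := by
      rw [div_le_div_iff₀ (by positivity) hR0, pow_two, ← mul_assoc]
      have h6 : R ^ q.totalDegree ≤ R ^ δ := pow_le_pow_right₀ hR hq
      have h7 : R ^ δ ≤ R ^ δ * R := le_mul_of_one_le_right (by positivity) hR
      gcongr
      exact h6.trans h7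
    have h8 : eval z q - eval z' q = (eval z q - eval z' q -
        (R : ℂ) ^ (q.totalDegree - 1) * ∑ j, eval ζ (pderiv j (top q)) * (z j - z' j)) +
        (R : ℂ) ^ (q.totalDegree - 1) * ∑ j, eval ζ (pderiv j (top q)) * (z j - z' j) := by ring
    rw [h8]
    refine (norm_add_le _ _).trans ?_
    have h9 : K1 * R ^ q.totalDegree / R ^ 2 * ‖z - z'‖ ≤ K1 * (R ^ δ / R) * ‖z - z'‖ := by
      rw [mul_div_assoc]
      gcongr
    have h10 : R ^ (q.totalDegree - 1) * (D * ‖z - z'‖) ≤ D * (R ^ δ / R) * ‖z - z'‖ := by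
      calc _ ≤ (R ^ δ / R) * (D * ‖z - z'‖) := by gcongr
        _ = _ := by ring
    calc _ ≤ K1 * (R ^ δ / R) * ‖z - z'‖ + D * (R ^ δ / R) * ‖z - z'‖ :=
          add_le_add (h1.trans h9) (h3.trans h10)
      _ = _ := by ring

theorem t_SIZE : S_SIZE := by
  classical
  intro s β _ p c ζ δ hδ hp F hF
  have hne : F.support.Nonempty := by
    rw [Finset.nonempty_iff_ne_empty]
    intro h
    exact hF (MvPolynomial.support_eq_empty.1 h)
  choose G hG0 hG using fun m : β →₀ ℕ => Pool.Agent.K3h74.EX.growth (qm p c m) (‖ζ‖ + 1)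
  set G1 : ℝ := ∑ m ∈ F.support, G m with hG1
  have hG10 : 0 ≤ G1 := Finset.sum_nonneg fun m _ => hG0 m
  have hGle : ∀ m ∈ F.support, G m ≤ G1 := fun m hm =>
    Finset.single_le_sum (f := G) (fun m _ => hG0 m) hm
  refine ⟨G1 + F.support.card, by positivity, fun C₀ => ?_⟩
  choose K hK0 hK using fun m : β →₀ ℕ => lipq (qm p c m) δ (qm_deg p c δ hp m) ζ C₀
  set K1 : ℝ := ∑ m ∈ F.support, K m with hK1
  have hK10 : 0 ≤ K1 := Finset.sum_nonneg fun m _ => hK0 m
  have hKle : ∀ m ∈ F.support, K m ≤ K1 := fun m hm =>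
    Finset.single_le_sum (f := K) (fun m _ => hK0 m) hm
  have hpos : ∀ z, 0 < size p c F z := fun z =>
    Finset.sum_pos (fun m _ => norm_pos_iff.2 (Complex.exp_ne_zero _)) hne
  refine ⟨K1, max 1 C₀, hK10, le_max_left _ _, fun R hR z hz => ⟨hpos z, ?_, ?_⟩⟩
  · have hR1 : 1 ≤ R := (le_max_left _ _).trans hR
    have hRδ : 1 ≤ R ^ δ := one_le_pow₀ hR1
    obtain ⟨v, hv, hzv⟩ := near hR1 ((le_max_right _ _).trans hR) hz
    have hterm : ∀ m ∈ F.support, |(eval z (qm p c m)).re| ≤ G1 * R ^ δ := by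
      intro m hm
      refine (Complex.abs_re_le_norm _).trans ?_
      rw [hzv]
      refine (hG m R hR1 v hv).trans ?_
      have h1 : R ^ (qm p c m).totalDegree ≤ R ^ δ :=
        pow_le_pow_right₀ hR1 (qm_deg p c δ hp m)
      have h2 := hGle m hm
      have h3 := hG0 m
      gcongr
    rw [abs_le]
    constructor
    · obtain ⟨m, hm⟩ := hne
      have h1 : Real.exp (-(G1 * R ^ δ)) ≤ size p c F z := by
        have h2 : ‖Complex.exp (eval z (qm p c m))‖ ≤ size p c F z :=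
          Finset.single_le_sum (f := fun m => ‖Complex.exp (eval z (qm p c m))‖)
            (fun _ _ => norm_nonneg _) hm
        refine le_trans ?_ h2
        rw [Complex.norm_exp]
        exact Real.exp_le_exp.2 (abs_le.1 (hterm m hm)).1
      have h3 := Real.log_le_log (Real.exp_pos _) h1
      rw [Real.log_exp] at h3
      have h4 : 0 ≤ (F.support.card : ℝ) * R ^ δ := by positivity
      linarith
    · have h1 : size p c F z ≤ F.support.card * Real.exp (G1 * R ^ δ) := by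
        unfold size
        calc _ ≤ ∑ _m ∈ F.support, Real.exp (G1 * R ^ δ) := by
              refine Finset.sum_le_sum fun m hm => ?_
              rw [Complex.norm_exp]
              exact Real.exp_le_exp.2 (abs_le.1 (hterm m hm)).2
          _ = _ := by rw [Finset.sum_const, nsmul_eq_mul]
      have hc : (0 : ℝ) < F.support.card := by exact_mod_cast Finset.card_pos.2 hne
      have h3 := Real.log_le_log (hpos z) h1
      rw [Real.log_mul hc.ne' (Real.exp_pos _).ne', Real.log_exp] at h3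
      have h4 : Real.log F.support.card ≤ F.support.card := by
        have := Real.log_le_sub_one_of_pos hc
        linarith
      have h5 : (F.support.card : ℝ) ≤ F.support.card * R ^ δ :=
        le_mul_of_one_le_right hc.le hRδ
      linarith
  · intro z' hz'
    have hR1 : 1 ≤ R := (le_max_left _ _).trans hR
    have hR0 : 0 < R := by linarith
    set x : ℝ := K1 * (R ^ δ / R) * ‖z - z'‖ with hx
    have key : ∀ a b : Fin s → ℂ, ‖a - sc R ζ‖ ≤ C₀ → ‖b - sc R ζ‖ ≤ C₀ → ‖a - b‖ = ‖z - z'‖ →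
        Real.log (size p c F a) ≤ x + Real.log (size p c F b) := by
      intro a b ha hb hab
      have h1 : size p c F a ≤ Real.exp x * size p c F b := by
        unfold size
        rw [Finset.mul_sum]
        refine Finset.sum_le_sum fun m hm => ?_
        rw [Complex.norm_exp, Complex.norm_exp, ← Real.exp_add]
        apply Real.exp_le_exp.2
        have h2 := hK m R hR1 a b ha hb
        have h3 := (Complex.abs_re_le_norm _).trans h2
        rw [Complex.sub_re, hab] at h3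
        have h4 : K m * (R ^ δ / R) * ‖z - z'‖ ≤ x := by
          rw [hx]
          have := hKle m hm
          gcongr
        have h5 := (abs_le.1 h3).2
        linarith
      have h2 := Real.log_le_log (hpos a) h1
      rwa [Real.log_mul (Real.exp_pos _).ne' (hpos b).ne', Real.log_exp] at h2
    have k1 := key z z' hz hz' rfl
    have k2 := key z' z hz' hz (norm_sub_rev _ _)
    rw [abs_le]
    constructor <;> linarith

theorem t_POS : S_POS := by
  classical
  intro s Φ ζ δ hδ hdeg hre hdet C₁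
  have hd1 : ∀ j, 1 ≤ (Φ j).totalDegree := fun j => by have := hdeg j; omega
  set M := jac (fun j => top (Φ j)) ζ with hM
  set A : (Fin s → ℂ) →L[ℂ] (Fin s → ℂ) :=
    ContinuousLinearMap.pi fun a => dlin (top (Φ a)) ζ with hAdef
  have hA : ∀ v, A v = M.mulVec v := by
    intro v
    funext a
    change dlin (top (Φ a)) ζ v = _
    rw [dlin_apply]
    simp [hM, jac, Matrix.mulVec, dotProduct]
  set B : (Fin s → ℂ) →L[ℂ] (Fin s → ℂ) := (Matrix.toLin' M⁻¹).toContinuousLinearMap with hBdef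
  have hB : ∀ v, B v = M⁻¹.mulVec v := by
    intro v; simp [hBdef]
  have hAB : ∀ v, A (B v) = v := by
    intro v
    rw [hA, hB, Matrix.mulVec_mulVec, Matrix.mul_nonsing_inv _ (Ne.isUnit hdet), Matrix.one_mulVec]
  have hBA : ∀ v, B (A v) = v := by
    intro v
    rw [hA, hB, Matrix.mulVec_mulVec, Matrix.nonsing_inv_mul _ (Ne.isUnit hdet), Matrix.one_mulVec]
  set N : NNReal := ‖B‖₊ + 1 with hN
  have hNpos : 0 < N := by positivity
  have hNR : (0 : ℝ) < N := by exact_mod_cast hNpos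
  have hBN : ∀ v, ‖B v‖ ≤ N * ‖v‖ := by
    intro v
    refine (B.le_opNorm v).trans ?_
    have : ‖B‖ ≤ (N : ℝ) := by rw [hN]; push_cast; linarith
    exact mul_le_mul_of_nonneg_right this (norm_nonneg _)
  let rinv : A.NonlinearRightInverse :=
    { toFun := B
      nnnorm := N
      bound' := hBN
      right_inv' := hAB }
  -- the value at `R ζ`
  choose E hE0 hE using fun j => Pool.Agent.K3h18.EX.t_EXPB s (Φ j) ζ 0 (hd1 j)
  set C2 : ℝ := ∑ j, (E j + ‖eval ζ (homogeneousComponent ((Φ j).totalDegree - 1) (Φ j))‖)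
    with hC2
  have hC2j : ∀ j, E j + ‖eval ζ (homogeneousComponent ((Φ j).totalDegree - 1) (Φ j))‖ ≤ C2 :=
    fun j => Finset.single_le_sum
      (f := fun j => E j + ‖eval ζ (homogeneousComponent ((Φ j).totalDegree - 1) (Φ j))‖)
      (fun j _ => add_nonneg (hE0 j) (norm_nonneg _)) (Finset.mem_univ j)
  have hC20 : 0 ≤ C2 := Finset.sum_nonneg fun j _ => add_nonneg (hE0 j) (norm_nonneg _)
  set ρ : ℝ := 2 * N * (|C₁| + C2) with hρdef
  have hρ : 0 ≤ ρ := by positivity
  choose Cj hCj0 hCj using fun j => Pool.Agent.K3h18.EX.t_EXPB s (Φ j) ζ ρ (hd1 j)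
  set C3 : ℝ := ∑ j, Cj j with hC3
  have hC3j : ∀ j, Cj j ≤ C3 := fun j =>
    Finset.single_le_sum (f := Cj) (fun j _ => hCj0 j) (Finset.mem_univ j)
  have hC30 : 0 ≤ C3 := Finset.sum_nonneg fun j _ => hCj0 j
  set Kn : NNReal := (2 * N)⁻¹ with hKn
  have hKr : (Kn : ℝ) = (2 * (N : ℝ))⁻¹ := by rw [hKn]; push_cast; rfl
  have hKpos : (0 : ℝ) < Kn := by rw [hKr]; positivity
  refine ⟨max ρ (2 * N), max 1 (C3 / Kn), le_max_of_le_left hρ, le_max_left _ _, fun R hR => ?_⟩
  have hR1 : 1 ≤ R := (le_max_left _ _).trans hR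
  have hR0 : 0 < R := by linarith
  have hCR : C3 / R ≤ Kn := by
    have h1 : C3 / Kn ≤ R := (le_max_right _ _).trans hR
    rw [div_le_iff₀ hKpos] at h1
    rw [div_le_iff₀ hR0]
    linarith
  have hrpos : ∀ j, 0 < R ^ ((Φ j).totalDegree - 1) := fun j => by positivity
  have hrδ : ∀ j, R ^ δ ≤ R ^ ((Φ j).totalDegree - 1) := fun j =>
    pow_le_pow_right₀ hR1 (by have := hdeg j; omega)
  have hrD : ∀ j, R ^ (Φ j).totalDegree / R ^ 2 = R ^ ((Φ j).totalDegree - 1) / R := by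
    intro j
    have h1 : (Φ j).totalDegree = ((Φ j).totalDegree - 1) + 1 := by have := hd1 j; omega
    rw [h1, pow_succ, Nat.add_sub_cancel]
    field_simp
  have hrn : ∀ j, ‖((R : ℂ) ^ ((Φ j).totalDegree - 1))⁻¹‖ = (R ^ ((Φ j).totalDegree - 1))⁻¹ := by
    intro j
    rw [norm_inv, norm_pow, Complex.norm_real, Real.norm_of_nonneg hR0.le]
  have hRc : ∀ j, ((R : ℂ) ^ ((Φ j).totalDegree - 1)) ≠ 0 :=
    fun j => pow_ne_zero _ (by exact_mod_cast hR0.ne')
  have hMd : ∀ j (v w : Fin s → ℂ), ∑ i, eval ζ (pderiv i (top (Φ j))) * (v i - w i) =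
      A (v - w) j := by
    intro j v w
    change _ = dlin (top (Φ j)) ζ (v - w)
    rw [dlin_apply]
    rfl
  set G : (Fin s → ℂ) → (Fin s → ℂ) := fun v j =>
    ((R : ℂ) ^ ((Φ j).totalDegree - 1))⁻¹ * eval (sc R ζ + v) (Φ j) with hG
  have hGapp : ApproximatesLinearOn G A (closedBall 0 ρ) Kn := by
    intro v hv w hw
    rw [mem_closedBall_zero_iff] at hv hw
    rw [pi_norm_le_iff_of_nonneg (by positivity)]
    intro j
    have h1 := (hCj j R hR1).2 v w hv hw
    rw [hMd, mul_div_assoc, hrD] at h1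
    have e : (G v - G w - A (v - w)) j = ((R : ℂ) ^ ((Φ j).totalDegree - 1))⁻¹ *
        (eval (sc R ζ + v) (Φ j) - eval (sc R ζ + w) (Φ j) -
          (R : ℂ) ^ ((Φ j).totalDegree - 1) * A (v - w) j) := by
      have := hRc j
      simp only [hG, Pi.sub_apply]
      field_simp
    rw [e, norm_mul, hrn]
    have hr := hrpos j
    calc _ ≤ (R ^ ((Φ j).totalDegree - 1))⁻¹ *
          (Cj j * (R ^ ((Φ j).totalDegree - 1) / R) * ‖v - w‖) := by gcongr
      _ = Cj j / R * ‖v - w‖ := by field_simp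
      _ ≤ C3 / R * ‖v - w‖ := by gcongr; exact hC3j j
      _ ≤ _ := by gcongr
  have hsurj := hGapp.surjOn_closedBall_of_nonlinearRightInverse rinv hρ (subset_refl _)
  have hrad : |C₁| + C2 ≤ (((rinv.nnnorm : ℝ))⁻¹ - ((Kn : NNReal) : ℝ)) * ρ := by
    have h1 : (rinv.nnnorm : ℝ) = (N : ℝ) := rfl
    rw [h1, hKr, hρdef]
    have h2 : ((N : ℝ)⁻¹ - (2 * (N : ℝ))⁻¹) * (2 * N * (|C₁| + C2)) = |C₁| + C2 := by
      field_simp
      ring
    rw [h2]
  -- the targets
  set y : (Fin s → ℝ) → (Fin s → ℂ) := fun σ j => ((R : ℂ) ^ ((Φ j).totalDegree - 1))⁻¹ *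
    ((σ j : ℂ) + (eval (sc R ζ) (Φ j)).im * Complex.I) with hy
  have hval : ∀ j, |(eval (sc R ζ) (Φ j)).re| ≤ C2 * R ^ ((Φ j).totalDegree - 1) := by
    intro j
    have h1 := (Complex.abs_re_le_norm _).trans (hE j R hR1).1
    rw [Complex.sub_re, Complex.sub_re, ← Complex.ofReal_pow, Complex.re_ofReal_mul, hre j,
      mul_zero, sub_zero, ← Complex.ofReal_pow, Complex.re_ofReal_mul, mul_div_assoc, hrD] at h1
    have h2 := Complex.abs_re_le_norm (eval ζ (homogeneousComponent ((Φ j).totalDegree - 1) (Φ j)))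
    have h3 := hC2j j
    have hr := hrpos j
    set r := R ^ ((Φ j).totalDegree - 1) with hrdef
    set u := (eval ζ (homogeneousComponent ((Φ j).totalDegree - 1) (Φ j))).re with hu
    set w := (eval (sc R ζ) (Φ j)).re with hw
    have h4 : E j * (r / R) ≤ E j * r := by
      have := hE0 j
      gcongr
      exact div_le_self hr.le hR1
    have h5 : |w| ≤ |w - r * u| + |r * u| := by
      have := abs_add_le (w - r * u) (r * u)
      simpa using this
    have h6 : |r * u| ≤ r * ‖eval ζ (homogeneousComponent ((Φ j).totalDegree - 1) (Φ j))‖ := by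
      rw [abs_mul, abs_of_pos hr]
      gcongr
    calc |w| ≤ E j * r + r * ‖eval ζ (homogeneousComponent ((Φ j).totalDegree - 1) (Φ j))‖ := by
          linarith
      _ = (E j + ‖eval ζ (homogeneousComponent ((Φ j).totalDegree - 1) (Φ j))‖) * r := by ring
      _ ≤ C2 * r := by gcongr
  have hmem : ∀ σ : Fin s → ℝ, (∀ j, |σ j| ≤ C₁ * R ^ δ) → ∃ w : Fin s → ℂ, ‖w‖ ≤ ρ ∧ G w = y σ := by
    intro σ hσ
    have h1 : y σ ∈ closedBall (G 0) ((((rinv.nnnorm : ℝ))⁻¹ - ((Kn : NNReal) : ℝ)) * ρ) := by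
      rw [mem_closedBall, dist_eq_norm]
      refine le_trans ?_ hrad
      rw [pi_norm_le_iff_of_nonneg (by positivity)]
      intro j
      have e : (y σ - G 0) j = ((R : ℂ) ^ ((Φ j).totalDegree - 1))⁻¹ *
          (((σ j - (eval (sc R ζ) (Φ j)).re : ℝ)) : ℂ) := by
        have h2 : eval (sc R ζ) (Φ j) = ((eval (sc R ζ) (Φ j)).re : ℂ) +
            (eval (sc R ζ) (Φ j)).im * Complex.I := (Complex.re_add_im _).symm
        simp only [hG, hy, Pi.sub_apply, add_zero]
        rw [← mul_sub]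
        congr 1
        push_cast
        linear_combination -h2
      rw [e, norm_mul, hrn, Complex.norm_real, Real.norm_eq_abs]
      have hr := hrpos j
      rw [inv_mul_le_iff₀ hr]
      have h3 : |σ j| ≤ |C₁| * R ^ ((Φ j).totalDegree - 1) := by
        calc |σ j| ≤ C₁ * R ^ δ := hσ j
          _ ≤ |C₁| * R ^ δ := by gcongr; exact le_abs_self _
          _ ≤ _ := mul_le_mul_of_nonneg_left (hrδ j) (abs_nonneg _)
      calc _ ≤ |σ j| + |(eval (sc R ζ) (Φ j)).re| := abs_sub _ _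
        _ ≤ |C₁| * R ^ ((Φ j).totalDegree - 1) + C2 * R ^ ((Φ j).totalDegree - 1) :=
          add_le_add h3 (hval j)
        _ = _ := by ring
    obtain ⟨w, hw, hGw⟩ := hsurj h1
    exact ⟨w, by simpa using hw, hGw⟩
  choose! wf hwf1 hwf2 using hmem
  refine ⟨fun σ => sc R ζ + wf σ, fun σ hσ => ⟨?_, ?_, ?_⟩⟩
  · rw [add_sub_cancel_left]
    exact (hwf1 σ hσ).trans (le_max_left _ _)
  · intro j
    have h1 := congrFun (hwf2 σ hσ) j
    simp only [hG, hy] at h1
    have h2 := mul_left_cancel₀ (inv_ne_zero (hRc j)) h1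
    rw [h2]
    simp
  · intro σ' hσ'
    rw [add_sub_add_left_eq_sub]
    have h1 := hGapp (wf σ) (by simpa using hwf1 σ hσ) (wf σ') (by simpa using hwf1 σ' hσ')
    have h2 : ‖wf σ - wf σ'‖ ≤ N * ‖A (wf σ - wf σ')‖ := by
      have := hBN (A (wf σ - wf σ'))
      rwa [hBA] at this
    have h3 : ‖A (wf σ - wf σ')‖ ≤ ‖G (wf σ) - G (wf σ')‖ + Kn * ‖wf σ - wf σ'‖ := by
      have e : A (wf σ - wf σ') = (G (wf σ) - G (wf σ')) -
          (G (wf σ) - G (wf σ') - A (wf σ - wf σ')) := by abel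
      rw [e]
      exact (norm_sub_le _ _).trans (add_le_add le_rfl h1)
    have h4 : ‖wf σ - wf σ'‖ ≤ 2 * N * ‖G (wf σ) - G (wf σ')‖ := by
      have h5 : (N : ℝ) * (Kn * ‖wf σ - wf σ'‖) = ‖wf σ - wf σ'‖ / 2 := by
        rw [hKr]
        field_simp
      have h6 : ‖wf σ - wf σ'‖ ≤ N * (‖G (wf σ) - G (wf σ')‖ + Kn * ‖wf σ - wf σ'‖) :=
        h2.trans (by gcongr)
      rw [mul_add, h5] at h6
      linarith
    rw [hwf2 σ hσ, hwf2 σ' hσ'] at h4
    have h7 : ‖y σ - y σ'‖ ≤ ‖σ - σ'‖ / R ^ δ := by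
      rw [pi_norm_le_iff_of_nonneg (by positivity)]
      intro j
      have e : (y σ - y σ') j = ((R : ℂ) ^ ((Φ j).totalDegree - 1))⁻¹ *
          (((σ - σ') j : ℝ) : ℂ) := by
        simp only [hy, Pi.sub_apply]
        push_cast
        ring
      rw [e, norm_mul, hrn, Complex.norm_real, inv_mul_eq_div]
      have h8 : ‖(σ - σ') j‖ ≤ ‖σ - σ'‖ := norm_le_pi_norm _ j
      have h9 := hrδ j
      have h10 : 0 < R ^ δ := by positivity
      exact div_le_div₀ (norm_nonneg _) h8 h10 h9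
    calc ‖wf σ - wf σ'‖ ≤ 2 * N * ‖y σ - y σ'‖ := h4
      _ ≤ 2 * N * (‖σ - σ'‖ / R ^ δ) := by gcongr
      _ ≤ max ρ (2 * N) * (‖σ - σ'‖ / R ^ δ) := by gcongr; exact le_max_right _ _
      _ = _ := by ring

end Pool.Agent.K3h33.UG2
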