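import Pool.Agent.K3h53.UG.Stm
import Pool.Agent.K3h74.EX.TopUpp

/-! UG project (helper53), brick LIM: exponential polynomials at unit scale converge. -/

set_option autoImplicit false

namespace Pool.Agent.K3h33.UG

open MvPolynomial Filter Topology Metric Set
open Pool.Agent.K3h22.EX Pool.Agent.K3h53.UG

/-- the linear part of a polynomial -/
noncomputable def lin {s : ℕ} (q : MvPolynomial (Fin s) ℂ) (w : Fin s → ℂ) : ℂ :=
  ∑ i, coeff (Finsupp.single i 1) q * w i

lemma lin_pt {s : ℕ} (q : MvPolynomial (Fin s) ℂ) (ζ : Fin s → ℂ) (R : ℝ) (w : Fin s → ℂ) :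
    lin q (pt ζ R w) = R * lin q ζ + lin q w := by
  unfold lin pt
  rw [Finset.mul_sum, ← Finset.sum_add_distrib]
  exact Finset.sum_congr rfl fun i _ => by ring

lemma eq_of_deg_one {s : ℕ} (q : MvPolynomial (Fin s) ℂ) (hq : q.totalDegree ≤ 1) :
    q = C (coeff 0 q) + ∑ i, C (coeff (Finsupp.single i 1) q) * X i := by
  classical
  ext d
  rw [coeff_add, coeff_C, coeff_sum]
  simp_rw [coeff_C_mul, coeff_X']
  by_cases h0 : d = 0
  · subst h0
    simp
  by_cases h1 : ∃ i, d = Finsupp.single i 1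
  · obtain ⟨i, rfl⟩ := h1
    rw [if_neg (Ne.symm h0), zero_add, Finset.sum_eq_single i]
    · simp
    · intro j _ hj
      rw [if_neg, mul_zero]
      intro h
      exact hj (Finsupp.single_left_injective one_ne_zero h)
    · intro h; exact absurd (Finset.mem_univ i) h
  · have hz : coeff d q = 0 := by
      apply coeff_eq_zero_of_totalDegree_lt
      refine lt_of_le_of_lt hq ?_
      by_contra hcon
      push Not at hcon
      obtain ⟨i, hi⟩ : ∃ i, d i ≠ 0 := by
        by_contra hc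
        push Not at hc
        exact h0 (by ext i; simp [hc i])
      have hsum : ∑ i ∈ d.support, d i = ∑ i, d i := by
        apply Finset.sum_subset (Finset.subset_univ _)
        intro j _ hj
        simpa using hj
      rw [hsum] at hcon
      have h2 : d i + ∑ j ∈ Finset.univ.erase i, d j = ∑ j, d j :=
        Finset.add_sum_erase _ _ (Finset.mem_univ i)
      have h3 : ∑ j ∈ Finset.univ.erase i, d j = 0 := by omega
      have h4 : d i = 1 := by omega
      rw [Finset.sum_eq_zero_iff] at h3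
      apply h1
      refine ⟨i, ?_⟩
      ext j
      by_cases hj : j = i
      · subst hj; simp [h4]
      · rw [Finsupp.single_apply, if_neg (Ne.symm hj)]
        exact h3 j (Finset.mem_erase.2 ⟨hj, Finset.mem_univ j⟩)
    rw [hz, if_neg (Ne.symm h0), zero_add, Finset.sum_eq_zero]
    intro i _
    rw [if_neg, mul_zero]
    intro h
    exact h1 ⟨i, h.symm⟩

lemma eval_of_deg_one {s : ℕ} (q : MvPolynomial (Fin s) ℂ) (hq : q.totalDegree ≤ 1)
    (w : Fin s → ℂ) : eval w q = lin q w + coeff 0 q := by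
  conv_lhs => rw [eq_of_deg_one q hq]
  simp [lin, add_comm]

lemma unif_sum {ι α : Type*} (S : Finset ι) (F : ι → ℕ → α → ℂ) (g : ι → α → ℂ) (K : Set α)
    (h : ∀ i ∈ S, TendstoUniformlyOn (F i) (g i) atTop K) :
    TendstoUniformlyOn (fun k w => ∑ i ∈ S, F i k w) (fun w => ∑ i ∈ S, g i w) atTop K := by
  classical
  rw [Metric.tendstoUniformlyOn_iff]
  intro ε hε
  have h1 : ∀ᶠ k in atTop, ∀ i ∈ S, ∀ w ∈ K, dist (g i w) (F i k w) < ε / (S.card + 1) := by
    rw [Filter.eventually_all_finset]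
    intro i hi
    exact (Metric.tendstoUniformlyOn_iff.1 (h i hi)) _ (by positivity)
  filter_upwards [h1] with k hk w hw
  rw [dist_eq_norm, ← Finset.sum_sub_distrib]
  calc ‖∑ i ∈ S, (g i w - F i k w)‖ ≤ ∑ i ∈ S, ‖g i w - F i k w‖ := norm_sum_le _ _
    _ ≤ ∑ i ∈ S, ε / (S.card + 1) := Finset.sum_le_sum fun i hi => by
        have := hk i hi w hw
        rw [dist_eq_norm] at this
        exact this.le
    _ = S.card * (ε / (S.card + 1)) := by rw [Finset.sum_const, nsmul_eq_mul]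
    _ < ε := by
        rw [← mul_div_assoc, div_lt_iff₀ (by positivity)]
        nlinarith

lemma unif_term {α : Type*} (K : Set α) (A : ℕ → α → ℂ) (a : ℂ) (B : ℕ → ℂ) (b : ℂ) (D : α → ℂ)
    (M : ℝ) (hD : ∀ w ∈ K, ‖D w‖ ≤ M)
    (hA : ∀ ε : ℝ, 0 < ε → ∀ᶠ k in atTop, ∀ w ∈ K, ‖A k w - a‖ < ε)
    (hB : Tendsto B atTop (𝓝 b)) :
    TendstoUniformlyOn (fun k w => A k w * B k * D w) (fun w => a * b * D w) atTop K := by
  rw [Metric.tendstoUniformlyOn_iff]
  intro ε hε
  set Q : ℝ := (|M| + 1) * (‖b‖ + 1 + ‖a‖) with hQ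
  have hQ0 : 0 < Q := by positivity
  set e : ℝ := ε / (2 * Q) with he
  have he0 : 0 < e := by positivity
  have h1 : ∀ᶠ k in atTop, ‖B k - b‖ < min e 1 := by
    have := (Metric.tendsto_nhds.1 hB) (min e 1) (by positivity)
    filter_upwards [this] with k hk
    rwa [dist_eq_norm] at hk
  filter_upwards [hA e he0, h1] with k hk1 hk2 w hw
  rw [dist_eq_norm]
  have h2 := hk1 w hw
  have h3 := hD w hw
  have h4 : ‖B k - b‖ < e := lt_of_lt_of_le hk2 (min_le_left _ _)
  have h5 : ‖B k‖ ≤ ‖b‖ + 1 := by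
    calc ‖B k‖ = ‖(B k - b) + b‖ := by ring_nf
      _ ≤ ‖B k - b‖ + ‖b‖ := norm_add_le _ _
      _ ≤ ‖b‖ + 1 := by linarith [lt_of_lt_of_le hk2 (min_le_right e 1)]
  have h6 : a * b * D w - A k w * B k * D w =
      -((A k w - a) * B k + a * (B k - b)) * D w := by ring
  rw [h6, norm_mul, norm_neg]
  have h7 : ‖(A k w - a) * B k + a * (B k - b)‖ ≤ e * (‖b‖ + 1) + ‖a‖ * e := by
    calc _ ≤ ‖(A k w - a) * B k‖ + ‖a * (B k - b)‖ := norm_add_le _ _
      _ ≤ _ := by
        rw [norm_mul, norm_mul]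
        gcongr
  have hM : ‖D w‖ ≤ |M| + 1 := by linarith [le_abs_self M]
  calc ‖(A k w - a) * B k + a * (B k - b)‖ * ‖D w‖
      ≤ (e * (‖b‖ + 1) + ‖a‖ * e) * (|M| + 1) := by gcongr
    _ = e * Q := by rw [hQ]; ring
    _ = ε / 2 := by rw [he]; field_simp
    _ < ε := by linarith

lemma A_unif {s : ℕ} (q : MvPolynomial (Fin s) ℂ) (ζ : Fin s → ℂ) (R : ℕ → ℝ)
    (hR : Tendsto R atTop atTop) (hR1 : ∀ k, 1 ≤ R k) (ρ : ℝ) :
    ∀ ε : ℝ, 0 < ε → ∀ᶠ k in atTop, ∀ w ∈ closedBall (0 : Fin s → ℂ) ρ,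
      ‖eval (pt ζ (R k) w) q / (R k : ℂ) ^ q.totalDegree - eval ζ (top q)‖ < ε := by
  intro ε hε
  obtain ⟨C, hC0, hC⟩ := Pool.Agent.K3h74.EX.t_TOP s q (‖ζ‖ + |ρ|)
  have hcont := (MvPolynomial.continuous_eval (top q)).continuousAt (x := ζ)
  obtain ⟨δ, hδ, hδ'⟩ := Metric.continuousAt_iff.1 hcont (ε / 2) (by positivity)
  have e1 : ∀ᶠ k in atTop, |ρ| / δ + 1 < R k := hR.eventually_gt_atTop _
  have e2 : ∀ᶠ k in atTop, 2 * C / ε + 1 < R k := hR.eventually_gt_atTop _
  filter_upwards [e1, e2] with k hk1 hk2 w hw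
  have hRk := hR1 k
  have hR0 : 0 < R k := by linarith
  have hRc : (R k : ℂ) ≠ 0 := by exact_mod_cast hR0.ne'
  set v : Fin s → ℂ := ζ + (R k : ℂ)⁻¹ • w with hv
  have hpt : pt ζ (R k) w = sc (R k) v := by
    funext i
    simp only [pt, sc, hv, Pi.add_apply, Pi.smul_apply, smul_eq_mul]
    field_simp
  have hw' : ‖w‖ ≤ |ρ| := by
    rw [mem_closedBall_zero_iff] at hw
    exact hw.trans (le_abs_self ρ)
  have hvζ : ‖v - ζ‖ ≤ |ρ| / R k := by
    rw [hv, add_sub_cancel_left, norm_smul, norm_inv, Complex.norm_real,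
      Real.norm_of_nonneg hR0.le, div_eq_inv_mul]
    gcongr
  have hvn : ‖v‖ ≤ ‖ζ‖ + |ρ| := by
    have h1 : ‖v‖ ≤ ‖ζ‖ + ‖v - ζ‖ := by
      calc ‖v‖ = ‖ζ + (v - ζ)‖ := by rw [add_sub_cancel]
        _ ≤ _ := norm_add_le _ _
    have h2 : |ρ| / R k ≤ |ρ| := div_le_self (abs_nonneg _) hRk
    linarith
  have h1 := hC (R k) hRk v hvn
  have hpow : 0 < R k ^ q.totalDegree := pow_pos hR0 _
  have h2 : ‖eval (sc (R k) v) q / (R k : ℂ) ^ q.totalDegree - eval v (top q)‖ ≤ C / R k := by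
    have e : eval (sc (R k) v) q / (R k : ℂ) ^ q.totalDegree - eval v (top q) =
        (eval (sc (R k) v) q - (R k : ℂ) ^ q.totalDegree * eval v (top q)) /
          (R k : ℂ) ^ q.totalDegree := by
      field_simp
    rw [e, norm_div, norm_pow, Complex.norm_real, Real.norm_of_nonneg hR0.le,
      div_le_iff₀ hpow]
    calc _ ≤ C * R k ^ q.totalDegree / R k := h1
      _ = C / R k * R k ^ q.totalDegree := by ring
  have h3 : ‖eval v (top q) - eval ζ (top q)‖ < ε / 2 := by
    have : dist v ζ < δ := by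
      rw [dist_eq_norm]
      refine lt_of_le_of_lt hvζ ?_
      rw [div_lt_iff₀ hR0]
      have : |ρ| / δ < R k := by linarith
      rw [div_lt_iff₀ hδ] at this
      linarith
    have := hδ' this
    rwa [dist_eq_norm] at this
  have h4 : C / R k < ε / 2 := by
    rw [div_lt_iff₀ hR0]
    have : 2 * C / ε < R k := by linarith
    rw [div_lt_iff₀ hε] at this
    linarith
  rw [hpt]
  calc _ = ‖(eval (sc (R k) v) q / (R k : ℂ) ^ q.totalDegree - eval v (top q)) +
        (eval v (top q) - eval ζ (top q))‖ := by ring_nf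
    _ ≤ _ := norm_add_le _ _
    _ < ε := by linarith

/-- the linear form `∑ m_b p_b` -/
noncomputable def Lam {s : ℕ} {β : Type} [Fintype β] (p : β → MvPolynomial (Fin s) ℂ)
    (m : β →₀ ℕ) (w : Fin s → ℂ) : ℂ := ∑ b, (m b : ℂ) * lin (p b) w

lemma lin_add {s : ℕ} (q : MvPolynomial (Fin s) ℂ) (v w : Fin s → ℂ) :
    lin q (v + w) = lin q v + lin q w := by
  unfold lin
  rw [← Finset.sum_add_distrib]
  exact Finset.sum_congr rfl fun i _ => by simp [mul_add]

lemma lin_smul {s : ℕ} (q : MvPolynomial (Fin s) ℂ) (t : ℂ) (w : Fin s → ℂ) :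
    lin q (t • w) = t * lin q w := by
  unfold lin
  rw [Finset.mul_sum]
  exact Finset.sum_congr rfl fun i _ => by simp [mul_left_comm]

lemma Lam_add {s : ℕ} {β : Type} [Fintype β] (p : β → MvPolynomial (Fin s) ℂ)
    (m : β →₀ ℕ) (v w : Fin s → ℂ) : Lam p m (v + w) = Lam p m v + Lam p m w := by
  unfold Lam
  simp_rw [lin_add, mul_add, Finset.sum_add_distrib]

lemma Lam_smul {s : ℕ} {β : Type} [Fintype β] (p : β → MvPolynomial (Fin s) ℂ)
    (m : β →₀ ℕ) (t : ℂ) (w : Fin s → ℂ) : Lam p m (t • w) = t * Lam p m w := by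
  unfold Lam
  rw [Finset.mul_sum]
  exact Finset.sum_congr rfl fun i _ => by rw [lin_smul]; ring

/-- the character `exp (∑ m_b p_b)` -/
noncomputable def chi {s : ℕ} {β : Type} [Fintype β] (p : β → MvPolynomial (Fin s) ℂ)
    (m : β →₀ ℕ) : Multiplicative (Fin s → ℂ) →* ℂ where
  toFun w := Complex.exp (Lam p m w.toAdd)
  map_one' := by
    have : Lam p m (0 : Fin s → ℂ) = 0 := by
      have := Lam_smul p m 0 (0 : Fin s → ℂ)
      simpa using this
    simp [this]
  map_mul' v w := by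
    rw [toAdd_mul, Lam_add, Complex.exp_add]

lemma chi_inj {s : ℕ} {β : Type} [Fintype β] (p : β → MvPolynomial (Fin s) ℂ)
    (hp : ∀ b, (p b).totalDegree ≤ 1)
    (hm : ∀ m : β → ℤ, m ≠ 0 → 0 < (∑ b, (m b : MvPolynomial (Fin s) ℂ) * p b).totalDegree) :
    Function.Injective (chi p) := by
  intro m m' h
  by_contra hne
  have h1 : ∀ w, Lam p m w = Lam p m' w := by
    intro w
    by_contra hw
    have hd : Lam p m w - Lam p m' w ≠ 0 := sub_ne_zero.2 hw
    set z := Lam p m w - Lam p m' w with hz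
    have h2 := DFunLike.congr_fun h (Multiplicative.ofAdd (z⁻¹ • w))
    have h3 : Complex.exp (Lam p m (z⁻¹ • w)) = Complex.exp (Lam p m' (z⁻¹ • w)) := h2
    have h4 : Complex.exp (Lam p m (z⁻¹ • w) - Lam p m' (z⁻¹ • w)) = 1 := by
      rw [Complex.exp_sub, h3, div_self (Complex.exp_ne_zero _)]
    rw [Lam_smul, Lam_smul, ← mul_sub, ← hz, inv_mul_cancel₀ hd] at h4
    have h5 : Real.exp 1 = 1 := by
      have := congrArg norm h4
      rw [Complex.norm_exp] at this
      simpa using this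
    have h6 : (1 : ℝ) < Real.exp 1 := Real.one_lt_exp_iff.2 one_pos
    linarith
  set n : β → ℤ := fun b => (m b : ℤ) - (m' b : ℤ) with hn
  have hn0 : n ≠ 0 := by
    intro h0
    apply hne
    ext b
    have := congrFun h0 b
    simp only [hn, Pi.zero_apply] at this
    omega
  have hq := hm n hn0
  set q : MvPolynomial (Fin s) ℂ := ∑ b, (n b : MvPolynomial (Fin s) ℂ) * p b with hqd
  have hev : ∀ w, eval w q = eval w (C (∑ b, (n b : ℂ) * coeff 0 (p b))) := by
    intro w
    rw [hqd, map_sum, eval_C]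
    have e1 : ∀ b, eval w ((n b : MvPolynomial (Fin s) ℂ) * p b) =
        (n b : ℂ) * lin (p b) w + (n b : ℂ) * coeff 0 (p b) := by
      intro b
      rw [map_mul, eval_of_deg_one (p b) (hp b), map_intCast]
      ring
    simp_rw [e1, Finset.sum_add_distrib]
    have e2 : ∑ b, (n b : ℂ) * lin (p b) w = 0 := by
      have e3 := h1 w
      unfold Lam at e3
      rw [← sub_eq_zero, ← Finset.sum_sub_distrib] at e3
      rw [← e3]
      refine Finset.sum_congr rfl fun b _ => ?_
      simp only [hn]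
      push_cast
      ring
    rw [e2, zero_add]
  have hqC : q = C (∑ b, (n b : ℂ) * coeff 0 (p b)) := MvPolynomial.funext hev
  rw [hqC, totalDegree_C] at hq
  exact lt_irrefl _ hq

lemma val_pt {s : ℕ} {β : Type} [Fintype β] (p : β → MvPolynomial (Fin s) ℂ) (c : β → ℂ)
    (hp : ∀ b, (p b).totalDegree ≤ 1) (ζ : Fin s → ℂ) (R : ℝ) (w : Fin s → ℂ)
    (G : MvPolynomial β (MvPolynomial (Fin s) ℂ)) :
    val p c (pt ζ R w) G = ∑ m ∈ G.support, eval (pt ζ R w) (coeff m G) *
      Complex.exp (R * Lam p m ζ) *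
      Complex.exp (Lam p m w + ∑ b, (m b : ℂ) * (coeff 0 (p b) + c b)) := by
  unfold val
  rw [coe_eval₂Hom, eval₂_eq']
  refine Finset.sum_congr rfl fun m _ => ?_
  rw [mul_assoc]
  congr 1
  rw [← Complex.exp_add]
  simp_rw [← Complex.exp_nat_mul]
  rw [← Complex.exp_sum]
  congr 1
  unfold Lam
  rw [Finset.mul_sum, ← Finset.sum_add_distrib, ← Finset.sum_add_distrib]
  refine Finset.sum_congr rfl fun b _ => ?_
  rw [eval_of_deg_one (p b) (hp b), lin_pt]
  ring

lemma B_lt (d N : ℕ) (L : ℂ) (h : ℝ) (hL : L.re < h) (R : ℕ → ℝ)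
    (hR : Tendsto R atTop atTop) (hR1 : ∀ k, 1 ≤ R k) :
    Tendsto (fun k => (R k : ℂ) ^ d * Complex.exp (R k * L) / (mag h N (R k) : ℂ)) atTop
      (𝓝 0) := by
  have h1 : Tendsto (fun k => (R k) ^ (d : ℝ) * Real.exp (-(h - L.re) * R k)) atTop (𝓝 0) :=
    (tendsto_rpow_mul_exp_neg_mul_atTop_nhds_zero d (h - L.re) (by linarith)).comp hR
  refine squeeze_zero_norm (fun k => ?_) h1
  have hRk := hR1 k
  have hR0 : 0 < R k := by linarith
  rw [norm_div, norm_mul, norm_pow, Complex.norm_real, Complex.norm_real,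
    Real.norm_of_nonneg hR0.le, Complex.norm_exp, Real.rpow_natCast]
  have hre : ((R k : ℂ) * L).re = R k * L.re := by simp
  rw [hre]
  have hmag : ‖mag h N (R k)‖ = R k ^ N * Real.exp (h * R k) := by
    unfold mag
    rw [Real.norm_of_nonneg (by positivity)]
  rw [hmag]
  rw [div_le_iff₀ (by positivity)]
  have e1 : Real.exp (-(h - L.re) * R k) * Real.exp (h * R k) = Real.exp (R k * L.re) := by
    rw [← Real.exp_add]
    congr 1
    ring
  have e2 : (1 : ℝ) ≤ R k ^ N := one_le_pow₀ hRk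
  calc R k ^ d * Real.exp (R k * L.re) = R k ^ d * Real.exp (R k * L.re) * 1 := by ring
    _ ≤ R k ^ d * Real.exp (R k * L.re) * R k ^ N := by gcongr
    _ = R k ^ d * (Real.exp (-(h - L.re) * R k) * Real.exp (h * R k)) * R k ^ N := by rw [e1]
    _ = R k ^ d * Real.exp (-(h - L.re) * R k) * (R k ^ N * Real.exp (h * R k)) := by ring

lemma B_deg (d N : ℕ) (L : ℂ) (h : ℝ) (hL : L.re = h) (hd : d < N) (R : ℕ → ℝ)
    (hR : Tendsto R atTop atTop) (hR1 : ∀ k, 1 ≤ R k) :
    Tendsto (fun k => (R k : ℂ) ^ d * Complex.exp (R k * L) / (mag h N (R k) : ℂ)) atTop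
      (𝓝 0) := by
  have h1 : Tendsto (fun k => (R k)⁻¹) atTop (𝓝 0) := tendsto_inv_atTop_zero.comp hR
  refine squeeze_zero_norm (fun k => ?_) h1
  have hRk := hR1 k
  have hR0 : 0 < R k := by linarith
  rw [norm_div, norm_mul, norm_pow, Complex.norm_real, Complex.norm_real,
    Real.norm_of_nonneg hR0.le, Complex.norm_exp]
  have hre : ((R k : ℂ) * L).re = R k * L.re := by simp
  rw [hre]
  have hmag : ‖mag h N (R k)‖ = R k ^ N * Real.exp (h * R k) := by
    unfold mag
    rw [Real.norm_of_nonneg (by positivity)]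
  rw [hmag, hL, div_le_iff₀ (by positivity)]
  have e1 : R k ^ d * R k ≤ R k ^ N := by
    rw [← pow_succ]
    exact pow_le_pow_right₀ hRk hd
  have e2 : R k ^ d ≤ (R k)⁻¹ * R k ^ N := by
    rw [← div_eq_inv_mul, le_div_iff₀ hR0]
    exact e1
  calc R k ^ d * Real.exp (R k * h) ≤ ((R k)⁻¹ * R k ^ N) * Real.exp (R k * h) := by gcongr
    _ = (R k)⁻¹ * (R k ^ N * Real.exp (h * R k)) := by rw [mul_comm h]; ring

lemma B_eq (N : ℕ) (L : ℂ) (h : ℝ) (hL : L.re = h) (R : ℝ) (hR : 1 ≤ R) :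
    (R : ℂ) ^ N * Complex.exp (R * L) / (mag h N R : ℂ) =
      Complex.exp (R * L.im * Complex.I) := by
  have hR0 : 0 < R := by linarith
  have hRc : (R : ℂ) ≠ 0 := by exact_mod_cast hR0.ne'
  unfold mag
  push_cast
  have e1 : Complex.exp (R * L) = Complex.exp (h * R) * Complex.exp (R * L.im * Complex.I) := by
    rw [← Complex.exp_add]
    congr 1
    conv_lhs => rw [← Complex.re_add_im L]
    rw [hL]
    ring
  rw [e1]
  have e2 := Complex.exp_ne_zero ((h : ℂ) * R)
  field_simp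

theorem t_LIM : S_LIM := by
  classical
  intro s β _ p c ζ hp hm
  -- the sequence
  let u : ℕ → β → ℂ := fun n b => Complex.exp (((n : ℝ) + 1 : ℝ) * (lin (p b) ζ).im * Complex.I)
  have hu1 : ∀ n b, ‖u n b‖ = 1 := by
    intro n b
    simp only [u]
    have := Complex.norm_exp_ofReal_mul_I ((((n : ℝ) + 1 : ℝ)) * (lin (p b) ζ).im)
    push_cast at this ⊢
    exact this
  have hucpt : ∀ n, u n ∈ closedBall (0 : β → ℂ) 1 := by
    intro n
    rw [mem_closedBall_zero_iff, pi_norm_le_iff_of_nonneg zero_le_one]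
    intro b
    exact (hu1 n b).le
  obtain ⟨τ, -, φ, hφ, hτ⟩ := (isCompact_closedBall (0 : β → ℂ) 1).tendsto_subseq hucpt
  have hτb : ∀ b, Tendsto (fun k => u (φ k) b) atTop (𝓝 (τ b)) := fun b =>
    (tendsto_pi_nhds.1 hτ) b
  have hτ0 : ∀ b, τ b ≠ 0 := by
    intro b h0
    have h1 := (hτb b).norm
    simp only [hu1] at h1
    have h2 := tendsto_nhds_unique h1 tendsto_const_nhds
    rw [h0, norm_zero] at h2
    norm_num at h2
  let R : ℕ → ℝ := fun k => (φ k : ℝ) + 1
  have hR1 : ∀ k, 1 ≤ R k := fun k => by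
    have : (0 : ℝ) ≤ (φ k : ℝ) := Nat.cast_nonneg _
    simp only [R]; linarith
  have hR : Tendsto R atTop atTop := by
    apply tendsto_atTop_add_const_right
    exact tendsto_natCast_atTop_atTop.comp hφ.tendsto_atTop
  refine ⟨R, hR, hR1, ?_⟩
  intro G hG hcG
  have hne : G.support.Nonempty := support_nonempty.2 hG
  obtain ⟨m0, hm0, hmax0⟩ := Finset.exists_max_image G.support (fun m => (Lam p m ζ).re) hne
  set h : ℝ := (Lam p m0 ζ).re with hh
  have hS1 : (G.support.filter fun m => (Lam p m ζ).re = h).Nonempty :=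
    ⟨m0, Finset.mem_filter.2 ⟨hm0, rfl⟩⟩
  obtain ⟨m1, hm1, hmax1⟩ := Finset.exists_max_image _
    (fun m : β →₀ ℕ => (coeff m G).totalDegree) hS1
  set N : ℕ := (coeff m1 G).totalDegree with hN
  rw [Finset.mem_filter] at hm1
  -- the limits
  let B0 : (β →₀ ℕ) → ℂ := fun m =>
    if (Lam p m ζ).re = h ∧ (coeff m G).totalDegree = N then ∏ b, τ b ^ m b else 0
  let D : (β →₀ ℕ) → (Fin s → ℂ) → ℂ := fun m w =>
    Complex.exp (Lam p m w + ∑ b, (m b : ℂ) * (coeff 0 (p b) + c b))
  have hB : ∀ m ∈ G.support, Tendsto (fun k => (R k : ℂ) ^ (coeff m G).totalDegree *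
      Complex.exp (R k * Lam p m ζ) / (mag h N (R k) : ℂ)) atTop (𝓝 (B0 m)) := by
    intro m hmS
    rcases lt_or_eq_of_le (hmax0 m hmS) with h1 | h1
    · have : B0 m = 0 := if_neg (fun hc => absurd hc.1 h1.ne)
      rw [this]
      exact B_lt _ _ _ _ h1 R hR hR1
    · rcases lt_or_eq_of_le (hmax1 m (Finset.mem_filter.2 ⟨hmS, h1⟩)) with h2 | h2
      · have : B0 m = 0 := if_neg (fun hc => absurd hc.2 h2.ne)
        rw [this]
        exact B_deg _ _ _ _ h1 h2 R hR hR1
      · have hB0 : B0 m = ∏ b, τ b ^ m b := if_pos ⟨h1, h2⟩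
        rw [hB0]
        have e1 : ∀ k, (R k : ℂ) ^ (coeff m G).totalDegree *
            Complex.exp (R k * Lam p m ζ) / (mag h N (R k) : ℂ) = ∏ b, u (φ k) b ^ m b := by
          intro k
          rw [show (coeff m G).totalDegree = N from h2]
          rw [B_eq N (Lam p m ζ) h h1 (R k) (hR1 k)]
          simp only [u, R]
          simp_rw [← Complex.exp_nat_mul]
          rw [← Complex.exp_sum]
          congr 1
          have e2 : (Lam p m ζ).im = ∑ b, (m b : ℝ) * (lin (p b) ζ).im := by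
            unfold Lam
            rw [Complex.im_sum]
            refine Finset.sum_congr rfl fun b _ => ?_
            rw [Complex.mul_im]
            simp
          rw [e2]
          push_cast
          rw [Finset.mul_sum, Finset.sum_mul]
          exact Finset.sum_congr rfl fun b _ => by ring
        simp_rw [e1]
        exact tendsto_finset_prod _ fun b _ => (hτb b).pow _
  have hDd : ∀ m, Differentiable ℂ (D m) := by
    intro m
    simp only [D, Lam, lin]
    fun_prop
  refine ⟨h, N, fun w => ∑ m ∈ G.support, eval ζ (top (coeff m G)) * B0 m * D m w, ?_, ?_, ?_⟩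
  · apply Differentiable.fun_sum
    intro m _
    exact (differentiable_const _).mul (hDd m)
  · -- not identically zero
    by_contra hcon
    push Not at hcon
    have hli := (linearIndependent_monoidHom (Multiplicative (Fin s → ℂ)) ℂ).comp
      (fun m : G.support => chi p m.1)
      (fun m m' hmm => Subtype.ext (chi_inj p hp hm hmm))
    rw [Fintype.linearIndependent_iff] at hli
    have h1 := hli (fun m => eval ζ (top (coeff m.1 G)) * B0 m.1 *
      Complex.exp (∑ b, (m.1 b : ℂ) * (coeff 0 (p b) + c b))) (by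
        funext w
        rw [Finset.sum_apply, Pi.zero_apply, ← hcon w.toAdd, ← Finset.sum_coe_sort G.support]
        refine Finset.sum_congr rfl fun m _ => ?_
        simp only [Pi.smul_apply, smul_eq_mul, Function.comp_apply, D, Complex.exp_add]
        have : (chi p m.1) w = Complex.exp (Lam p m.1 w.toAdd) := rfl
        rw [this]
        ring) ⟨m1, hm1.1⟩
    have hB1 : B0 m1 = ∏ b, τ b ^ m1 b := if_pos ⟨hm1.2, rfl⟩
    have h2 : B0 m1 ≠ 0 := by
      rw [hB1]
      exact Finset.prod_ne_zero_iff.2 fun b _ => pow_ne_zero _ (hτ0 b)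
    exact mul_ne_zero (mul_ne_zero (hcG m1 hm1.1) h2) (Complex.exp_ne_zero _) h1
  · intro ρ
    have hmain := unif_sum G.support
      (fun m k w => (eval (pt ζ (R k) w) (coeff m G) / (R k : ℂ) ^ (coeff m G).totalDegree) *
        ((R k : ℂ) ^ (coeff m G).totalDegree *
          Complex.exp (R k * Lam p m ζ) / (mag h N (R k) : ℂ)) * D m w)
      (fun m w => eval ζ (top (coeff m G)) * B0 m * D m w) (closedBall 0 ρ) (by
        intro m hmS
        obtain ⟨M, hM⟩ := (isCompact_closedBall (0 : Fin s → ℂ) ρ).exists_bound_of_continuousOn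
          (f := D m) (hDd m).continuous.continuousOn
        exact unif_term _ _ _ _ _ _ M hM (A_unif (coeff m G) ζ R hR hR1 ρ) (hB m hmS))
    refine hmain.congr ?_
    filter_upwards with k w _
    have hRk := hR1 k
    have hR0 : 0 < R k := by linarith
    have hRc : (R k : ℂ) ≠ 0 := by exact_mod_cast hR0.ne'
    simp only
    rw [val_pt p c hp ζ (R k) w G, Finset.sum_div]
    refine Finset.sum_congr rfl fun m _ => ?_
    simp only [D]
    field_simp

end Pool.Agent.K3h33.UG
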