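import Pool.Agent.K3h53.UG.Stm

/-! UG project (helper53), brick NEWT: sizes of roots, separation, continuity. -/

set_option autoImplicit false

namespace Pool.Agent.K3h33.UG

open Filter Topology Metric Set
open Pool.Agent.K3h53.UG

theorem t_NEWT : S_NEWT := by
  classical
  intro n c C hc
  refine ⟨Real.log (n + 1) + 2 * (|Real.log c| + |Real.log C|), ?_, ?_⟩
  · have : 0 ≤ Real.log ((n : ℝ) + 1) := Real.log_nonneg (by linarith [Nat.cast_nonneg (α := ℝ) n])
    positivity
  intro S M a hM hS h0 t ht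
  have hpos : ∀ k ∈ S, 0 < ‖a k‖ := fun k hk =>
    lt_of_lt_of_le (mul_pos hc (hM k hk).1) (hM k hk).2.1
  have hC : 0 < C := by
    have h1 := hpos 0 h0
    have h2 := (hM 0 h0).2.2
    have h3 := (hM 0 h0).1
    by_contra hcon
    push Not at hcon
    have : C * M 0 ≤ 0 := mul_nonpos_of_nonpos_of_nonneg hcon h3.le
    linarith
  have ht0 : t ≠ 0 := by
    rintro rfl
    rw [Finset.sum_eq_single 0] at ht
    · simp only [pow_zero, mul_one] at ht
      have := hpos 0 h0
      rw [ht, norm_zero] at this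
      exact lt_irrefl _ this
    · intro k _ hk
      rw [zero_pow hk, mul_zero]
    · intro h
      exact absurd h0 h
  refine ⟨ht0, ?_⟩
  have htn : 0 < ‖t‖ := norm_pos_iff.2 ht0
  have hb : ∀ k ∈ S, 0 < ‖a k * t ^ k‖ := by
    intro k hk
    rw [norm_mul, norm_pow]
    exact mul_pos (hpos k hk) (pow_pos htn k)
  obtain ⟨k0, hk0, hmax⟩ := Finset.exists_max_image S (fun k => ‖a k * t ^ k‖) ⟨0, h0⟩
  have hsum : ‖a k0 * t ^ k0‖ ≤ ∑ k ∈ S.erase k0, ‖a k * t ^ k‖ := by
    have h1 : a k0 * t ^ k0 = - ∑ k ∈ S.erase k0, a k * t ^ k := by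
      rw [← Finset.add_sum_erase S _ hk0] at ht
      linear_combination ht
    rw [h1, norm_neg]
    exact norm_sum_le _ _
  have hne : (S.erase k0).Nonempty := by
    rw [Finset.nonempty_iff_ne_empty]
    intro h
    rw [h, Finset.sum_empty] at hsum
    exact absurd (hb k0 hk0) (not_lt.2 hsum)
  obtain ⟨l, hl, hlmax⟩ := Finset.exists_max_image (S.erase k0) (fun k => ‖a k * t ^ k‖) hne
  have hlS : l ∈ S := Finset.mem_of_mem_erase hl
  have hlk : l ≠ k0 := Finset.ne_of_mem_erase hl
  have hcard : (S.card : ℝ) ≤ n + 1 := by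
    have h1 : S ⊆ Finset.range (n + 1) := fun k hk => Finset.mem_range.2 (Nat.lt_succ_of_le (hS k hk))
    have h2 := Finset.card_le_card h1
    rw [Finset.card_range] at h2
    exact_mod_cast h2
  have h1 : ‖a k0 * t ^ k0‖ ≤ (n + 1) * ‖a l * t ^ l‖ := by
    refine hsum.trans ?_
    refine (Finset.sum_le_card_nsmul _ _ _ hlmax).trans ?_
    rw [nsmul_eq_mul]
    apply mul_le_mul_of_nonneg_right _ (norm_nonneg _)
    refine le_trans ?_ hcard
    exact_mod_cast Finset.card_le_card (Finset.erase_subset _ _)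
  have h2 : ‖a l * t ^ l‖ ≤ ‖a k0 * t ^ k0‖ := hmax l hlS
  have hlog : ∀ k ∈ S, Real.log ‖a k * t ^ k‖ = Real.log ‖a k‖ + k * Real.log ‖t‖ := by
    intro k hk
    rw [norm_mul, norm_pow, Real.log_mul (hpos k hk).ne' (pow_pos htn k).ne', Real.log_pow]
  have h3 : Real.log ‖a k0 * t ^ k0‖ ≤ Real.log (n + 1) + Real.log ‖a l * t ^ l‖ := by
    rw [← Real.log_mul (by positivity) (hb l hlS).ne']
    exact Real.log_le_log (hb k0 hk0) h1
  have h4 : Real.log ‖a l * t ^ l‖ ≤ Real.log ‖a k0 * t ^ k0‖ := Real.log_le_log (hb l hlS) h2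
  rw [hlog k0 hk0, hlog l hlS] at h3
  rw [hlog k0 hk0, hlog l hlS] at h4
  have hMa : ∀ k ∈ S, |Real.log ‖a k‖ - Real.log (M k)| ≤ |Real.log c| + |Real.log C| := by
    intro k hk
    obtain ⟨m1, m2, m3⟩ := hM k hk
    have e1 : Real.log c + Real.log (M k) ≤ Real.log ‖a k‖ := by
      rw [← Real.log_mul hc.ne' m1.ne']
      exact Real.log_le_log (mul_pos hc m1) m2
    have e2 : Real.log ‖a k‖ ≤ Real.log C + Real.log (M k) := by
      rw [← Real.log_mul hC.ne' m1.ne']
      exact Real.log_le_log (hpos k hk) m3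
    have e3 := neg_abs_le (Real.log c)
    have e4 := le_abs_self (Real.log C)
    have e5 := abs_nonneg (Real.log c)
    have e6 := abs_nonneg (Real.log C)
    rw [abs_le]
    constructor <;> linarith
  have g1 := abs_le.1 (hMa k0 hk0)
  have g2 := abs_le.1 (hMa l hlS)
  set B : ℝ := |Real.log c| + |Real.log C| with hB
  have hBn : 0 ≤ B := by positivity
  have hn1 : 0 ≤ Real.log ((n : ℝ) + 1) := Real.log_nonneg (by linarith [Nat.cast_nonneg (α := ℝ) n])
  -- the difference
  have hd : |(Real.log (M k0) + k0 * Real.log ‖t‖) - (Real.log (M l) + l * Real.log ‖t‖)| ≤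
      Real.log (n + 1) + 2 * B := by
    rw [abs_le]
    constructor <;> linarith [g1.1, g1.2, g2.1, g2.2]
  have fin : ∀ k l : ℕ, k < l →
      |(Real.log (M k) + k * Real.log ‖t‖) - (Real.log (M l) + l * Real.log ‖t‖)| ≤
        Real.log (n + 1) + 2 * B →
      |Real.log ‖t‖ - (Real.log (M k) - Real.log (M l)) / ((l : ℝ) - k)| ≤
        Real.log (n + 1) + 2 * B := by
    intro k l hkl h
    have hkl' : (1 : ℝ) ≤ (l : ℝ) - k := by
      have : (k : ℝ) + 1 ≤ l := by exact_mod_cast hkl
      linarith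
    have hp : (0 : ℝ) < (l : ℝ) - k := by linarith
    have e1 : Real.log ‖t‖ - (Real.log (M k) - Real.log (M l)) / ((l : ℝ) - k) =
        -(((Real.log (M k) + k * Real.log ‖t‖) - (Real.log (M l) + l * Real.log ‖t‖)) /
          ((l : ℝ) - k)) := by
      field_simp
      ring
    rw [e1, abs_neg, abs_div, abs_of_pos hp]
    refine (div_le_self (abs_nonneg _) hkl').trans h
  rcases lt_or_gt_of_ne hlk with hlt | hlt
  · refine ⟨l, hlS, k0, hk0, hlt, fin l k0 hlt ?_⟩
    rw [abs_sub_comm]
    exact hd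
  · exact ⟨k0, hk0, l, hlS, hlt, fin k0 l hlt hd⟩

theorem t_SEP : S_SEP := by
  intro E C
  have key : ∀ e ∈ E, ∀ e' ∈ E, e ≠ e' → ∀ᶠ R : ℝ in atTop,
      C < |(e.1 * R + e.2 * Real.log R) - (e'.1 * R + e'.2 * Real.log R)| := by
    intro e _ e' _ hne
    set p := e.1 - e'.1 with hp
    set q := e.2 - e'.2 with hq
    have heq : ∀ R : ℝ, (e.1 * R + e.2 * Real.log R) - (e'.1 * R + e'.2 * Real.log R) =
        p * R + q * Real.log R := by
      intro R; rw [hp, hq]; ring
    simp only [heq]
    by_cases hp0 : p = 0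
    · have hq0 : q ≠ 0 := by
        intro h
        apply hne
        apply Prod.ext
        · linarith
        · linarith
      have h1 : Tendsto (fun R : ℝ => |q| * Real.log R) atTop atTop :=
        Real.tendsto_log_atTop.const_mul_atTop (abs_pos.2 hq0)
      filter_upwards [h1.eventually_gt_atTop C, eventually_ge_atTop (1 : ℝ)] with R hR hR1
      rw [hp0, zero_mul, zero_add, abs_mul, abs_of_nonneg (Real.log_nonneg hR1)]
      exact hR
    · have hp1 : 0 < |p| := abs_pos.2 hp0
      have h1 : ∀ᶠ R : ℝ in atTop, ‖Real.log R‖ ≤ (|p| / (2 * (|q| + 1))) * ‖(id R : ℝ)‖ :=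
        Real.isLittleO_log_id_atTop.def (by positivity)
      have h2 : Tendsto (fun R : ℝ => (|p| / 2) * R) atTop atTop :=
        tendsto_id.const_mul_atTop (by positivity)
      filter_upwards [h1, h2.eventually_gt_atTop C, eventually_ge_atTop (1 : ℝ)] with R hR hR2 hR1
      have hR0 : 0 ≤ R := by linarith
      rw [id, Real.norm_eq_abs, Real.norm_eq_abs, abs_of_nonneg hR0] at hR
      have h3 : |q * Real.log R| ≤ |p| / 2 * R := by
        rw [abs_mul]
        calc |q| * |Real.log R| ≤ |q| * (|p| / (2 * (|q| + 1)) * R) :=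
              mul_le_mul_of_nonneg_left hR (abs_nonneg q)
          _ = (|q| / (|q| + 1)) * (|p| / 2 * R) := by
              field_simp
          _ ≤ 1 * (|p| / 2 * R) := by
              apply mul_le_mul_of_nonneg_right _ (by positivity)
              rw [div_le_one (by positivity)]
              linarith
          _ = |p| / 2 * R := one_mul _
      have h4 : |p * R| = |p| * R := by rw [abs_mul, abs_of_nonneg hR0]
      have h5 : |p * R| - |q * Real.log R| ≤ |p * R + q * Real.log R| := by
        have := abs_sub_abs_le_abs_sub (p * R) (-(q * Real.log R))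
        rw [abs_neg, sub_neg_eq_add] at this
        exact this
      rw [h4] at h5
      linarith
  have hall : ∀ᶠ R : ℝ in atTop, ∀ e ∈ E, ∀ e' ∈ E, e ≠ e' →
      C < |(e.1 * R + e.2 * Real.log R) - (e'.1 * R + e'.2 * Real.log R)| := by
    rw [Filter.eventually_all_finset]
    intro e he
    rw [Filter.eventually_all_finset]
    intro e' he'
    by_cases hne : e ≠ e'
    · filter_upwards [key e he e' he' hne] with R hR _
      exact hR
    · exact Filter.Eventually.of_forall fun R h => absurd h hne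
  obtain ⟨R₀, hR₀⟩ := eventually_atTop.1 hall
  exact ⟨R₀, hR₀⟩

theorem t_CLS : S_CLS := by
  classical
  intro s Ω f E C hΩ hf hE hsep w₀ hw₀ e₀ he₀ h₀ w hw
  by_contra hcon
  push Not at hcon
  obtain ⟨δ, hδ, hmin⟩ : ∃ δ : ℝ, 0 < δ ∧ ∀ e ∈ E, e₀ ≠ e → δ ≤ |e₀ - e| - 2 * C := by
    rcases (E.filter fun e => e₀ ≠ e).eq_empty_or_nonempty with h | h
    · refine ⟨1, one_pos, fun e he hne => ?_⟩
      have : e ∈ E.filter fun e => e₀ ≠ e := Finset.mem_filter.2 ⟨he, hne⟩
      rw [h] at this
      exact absurd this (Finset.notMem_empty e)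
    · obtain ⟨e1, h1, h2⟩ := Finset.exists_min_image _ (fun e => |e₀ - e| - 2 * C) h
      rw [Finset.mem_filter] at h1
      refine ⟨|e₀ - e1| - 2 * C, by linarith [hsep e₀ he₀ e1 h1.1 h1.2], fun e he hne => ?_⟩
      exact h2 e (Finset.mem_filter.2 ⟨he, hne⟩)
  -- a value just outside
  obtain ⟨x, hx, hx1, hx2⟩ : ∃ x ∈ f '' Ω, C < |x - e₀| ∧ |x - e₀| < C + δ := by
    rw [abs_le] at h₀
    rcases lt_abs.1 hcon with h | h
    · refine ⟨min (f w) (e₀ + C + δ / 2), ?_, ?_, ?_⟩
      · apply hΩ.intermediate_value hw₀ hw hf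
        refine ⟨le_min (by linarith) (by linarith), min_le_left _ _⟩
      · refine lt_of_lt_of_le ?_ (le_abs_self _)
        have : C + e₀ < min (f w) (e₀ + C + δ / 2) := lt_min (by linarith) (by linarith)
        linarith
      · rw [abs_lt]
        have h5 : C + e₀ < min (f w) (e₀ + C + δ / 2) := lt_min (by linarith) (by linarith)
        have h6 := min_le_right (f w) (e₀ + C + δ / 2)
        constructor <;> linarith
    · refine ⟨max (f w) (e₀ - C - δ / 2), ?_, ?_, ?_⟩
      · apply hΩ.intermediate_value hw hw₀ hf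
        refine ⟨le_max_left _ _, max_le (by linarith) (by linarith)⟩
      · refine lt_of_lt_of_le ?_ (neg_le_abs _)
        have : max (f w) (e₀ - C - δ / 2) < e₀ - C := max_lt (by linarith) (by linarith)
        linarith
      · rw [abs_lt]
        have h5 : max (f w) (e₀ - C - δ / 2) < e₀ - C := max_lt (by linarith) (by linarith)
        have h6 := le_max_right (f w) (e₀ - C - δ / 2)
        constructor <;> linarith
  obtain ⟨w', hw', rfl⟩ := hx
  obtain ⟨e, he, hex⟩ := hE w' hw'
  by_cases hee : e₀ = e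
  · subst hee
    exact absurd hex (not_le.2 hx1)
  · have h1 := hmin e he hee
    have h2 : |e₀ - e| ≤ |f w' - e₀| + |f w' - e| := by
      have : e₀ - e = (f w' - e) - (f w' - e₀) := by ring
      rw [this]
      have := abs_sub (f w' - e) (f w' - e₀)
      linarith
    linarith

end Pool.Agent.K3h33.UG
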